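import Pool.Agent.TH336.ER.Defs

/-!
# Powers of the truncated Dirichlet polynomial
-/

set_option autoImplicit false

open Complex MeasureTheory Set Filter Topology

namespace Pool.Agent.TH511.ER

open Pool.Agent.TH336.ER
open Pool.Agent.W188.QS Pool.Agent.H306R2

private theorem PS_eq_Dp (A : ArithmeticFunction ℝ) (N : ℕ) (s : ℂ) :
    PS A N s = Dp A (N : ℝ) s := by
  unfold PS Dp
  rw [Nat.floor_natCast]

theorem cf_pow (b N a j : ℕ) (hN : 1 ≤ N) (hj : j ≤ a) (s : ℂ) :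
    PS (Pool.Agent.TH336.ER.cf b N 1) N s ^ j = PS (Pool.Agent.TH336.ER.cf b N j) (N ^ a) s := by
  have hN' : (1 : ℝ) ≤ N := by exact_mod_cast hN
  have h1 := Dp_pow (tr (dA (1 / (2 * (b : ℝ)))) (N : ℝ)) (N : ℝ) hN'
    (fun n hn => tr_supp _ _ n hn) s j
  rw [PS_eq_Dp, PS_eq_Dp]
  unfold Pool.Agent.TH336.ER.cf
  rw [pow_one, ← h1.2]
  push_cast
  exact (Dp_mono _ _ _ (pow_le_pow_right₀ hN' hj) h1.1 s).symm

theorem cf_le (b N a j n : ℕ) (hb : 1 ≤ b) (hj : j ≤ a) (hn : 1 ≤ n) :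
    0 ≤ Pool.Agent.TH336.ER.cf b N j n ∧ Pool.Agent.TH336.ER.cf b N j n ≤ (n : ℝ) ^ a := by
  have hb' : (1 : ℝ) ≤ b := by exact_mod_cast hb
  have he : (0 : ℝ) ≤ 1 / (2 * (b : ℝ)) := by positivity
  have he1 : 1 / (2 * (b : ℝ)) ≤ 1 := by
    rw [div_le_one (by linarith)]
    linarith
  refine ⟨tr_pow_nonneg he _ _ _, ?_⟩
  refine (tr_pow_le he _ _ _).trans ?_
  have hja : (j : ℝ) * (1 / (2 * (b : ℝ))) ≤ (a : ℕ) := by
    have h1 : (j : ℝ) * (1 / (2 * (b : ℝ))) ≤ j * 1 := by gcongr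
    have h2 : (j : ℝ) ≤ a := by exact_mod_cast hj
    linarith
  have h := PB_dA (by positivity : (0 : ℝ) ≤ (j : ℝ) * (1 / (2 * (b : ℝ)))) hja n
  rw [dA_apply] at h
  exact (le_abs_self _).trans h

end Pool.Agent.TH511.ER
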